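import Mathlib
import Pool.Agent.KS6_18.Rel

set_option autoImplicit false

/-!
# Artin's density with the correction factor: exceptional sets of exponent `0`, all `x`

`P n x` is the number of the primes `p ≤ x` with the primitive root `n` and `δ D` the density of the
problem.  Let `ε > 0` and `0 < C₁ ≤ C₂` be arbitrary.

* Only `(log N) ^ A` squarefree integers `n ≡ 1 mod 4`, `|n| ≤ N`, `n ≠ 1`, violate
  `P n x ≤ (δ n + ε) π(x)` for some `x` between `|n| ^ C₁` and `|n| ^ C₂`.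
* For EVERY `θ > 0`, at most `N ^ θ` of them violate `P n x ≥ (δ n - ε) π(x)` for some such `x`.
* The same holds for all `n = D m ^ 2` (`D ≡ 1 mod 4` squarefree), `|n| ≤ N`, and ALL
  `x ∈ [N ^ C₁, N ^ C₂]`, if `|D|` is not in a set `F` of at most `(log N) ^ A` integers `> (log N) ^ B`,
  if `n` is in none of the classes `g y ^ l` (`g` in a set of at most `(log N) ^ A` integers, `l ≤ L` an
  odd prime, `y` rational) and, for the lower bound, if `n` is not in a set of `N ^ θ` integers.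
-/

namespace Pool.Agent.Results.MP_991e92_nt.AllXAllTheta

open Finset

open Classical in
/-- the number of the primes `p ≤ x` modulo which `n` is a primitive root -/
noncomputable def P (n : ℤ) (x : ℕ) : ℕ :=
  ((Icc 1 x).filter (fun p : ℕ => p.Prime ∧ ¬ (p : ℤ) ∣ n ∧ orderOf (n : ZMod p) = p - 1)).card

/-- the density `(1 - μ(|D|) ∏_{q ∣ D} 1 / (q ^ 2 - q - 1)) ∏_p (1 - 1 / (p (p - 1)))` -/
noncomputable def δ (D : ℤ) : ℝ :=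
  (1 - ((ArithmeticFunction.moebius D.natAbs : ℤ) : ℝ) *
      ∏ q ∈ D.natAbs.primeFactors, (1 / ((q : ℝ) ^ 2 - (q : ℝ) - 1))) *
    ∏' p : Nat.Primes, (1 - 1 / (((p : ℕ) : ℝ) * (((p : ℕ) : ℝ) - 1)))

/-- the squarefree integers `n ≡ 1 mod 4`, `n ≠ 1`, with `|n| ≤ N`, such that `P n x` is larger than
`(δ n + ε) π(x)` for some `x` between `|n| ^ C₁` and `|n| ^ C₂` -/
def TooMany (ε C₁ C₂ : ℝ) (N : ℕ) : Set ℤ :=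
  {n | n.natAbs ≤ N ∧ (Squarefree n ∧ n % 4 = 1 ∧ n ≠ 1) ∧
    ∃ x : ℕ, (n.natAbs : ℝ) ^ C₁ ≤ x ∧ (x : ℝ) ≤ (n.natAbs : ℝ) ^ C₂ ∧
      (δ n + ε) * Nat.primeCounting x < (P n x : ℝ)}

/-- the squarefree integers `n ≡ 1 mod 4`, `n ≠ 1`, with `|n| ≤ N`, such that `P n x` is smaller than
`(δ n - ε) π(x)` for some `x` between `|n| ^ C₁` and `|n| ^ C₂` -/
def TooFew (ε C₁ C₂ : ℝ) (N : ℕ) : Set ℤ :=
  {n | n.natAbs ≤ N ∧ (Squarefree n ∧ n % 4 = 1 ∧ n ≠ 1) ∧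
    ∃ x : ℕ, (n.natAbs : ℝ) ^ C₁ ≤ x ∧ (x : ℝ) ≤ (n.natAbs : ℝ) ^ C₂ ∧
      (P n x : ℝ) < (δ n - ε) * Nat.primeCounting x}

theorem result (ε C₁ C₂ : ℝ) (hε : 0 < ε) (hC₁ : 0 < C₁) (hC₂ : C₁ ≤ C₂) :
    (∃ A N₀ : ℕ, ∀ N : ℕ, N₀ ≤ N → ((TooMany ε C₁ C₂ N).ncard : ℝ) ≤ (Real.log N) ^ A) ∧
    (∀ θ : ℝ, 0 < θ → ∃ N₀ : ℕ, ∀ N : ℕ, N₀ ≤ N →
      ((TooFew ε C₁ C₂ N).ncard : ℝ) ≤ (N : ℝ) ^ θ) ∧
    ∀ θ : ℝ, 0 < θ → ∃ L A : ℕ, ∀ B : ℕ, ∃ N₀ : ℕ, ∀ N : ℕ, N₀ ≤ N →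
      ∃ (E : Finset ℤ) (F : Finset ℕ) (G : Finset ℤ),
        (E.card : ℝ) ≤ (N : ℝ) ^ θ ∧
        (F.card : ℝ) ≤ (Real.log N) ^ A ∧ (∀ b ∈ F, (Real.log N) ^ B < b) ∧
        (G.card : ℝ) ≤ (Real.log N) ^ A ∧ (∀ g ∈ G, g ≠ 0) ∧
        ∀ n D m : ℤ, n = D * m ^ 2 → n ≠ 0 → n.natAbs ≤ N → Squarefree D → D % 4 = 1 → D ≠ 1 →
          D.natAbs ∉ F →
          (∀ g ∈ G, ∀ l : ℕ, l.Prime → 3 ≤ l → l ≤ L → ∀ y : ℚ, (n : ℚ) ≠ g * y ^ l) →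
          ∀ x : ℕ, (N : ℝ) ^ C₁ ≤ x → (x : ℝ) ≤ (N : ℝ) ^ C₂ →
            (P n x : ℝ) ≤ (δ D + ε) * Nat.primeCounting x ∧
            (n ∉ E → (δ D - ε) * Nat.primeCounting x ≤ (P n x : ℝ)) := by
  obtain ⟨h1, h2⟩ := Pool.Agent.KS6_18.t5a ε C₁ C₂ hε hC₁ hC₂
  refine ⟨h1, h2, fun θ hθ => ?_⟩
  obtain ⟨z, A, h⟩ := Pool.Agent.KS6_18.t5 θ ε C₁ C₂ hθ hε hC₁ hC₂
  exact ⟨z, A, fun B => Filter.eventually_atTop.1 (h B)⟩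

end Pool.Agent.Results.MP_991e92_nt.AllXAllTheta
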