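import Pool.Agent.KS6_33.EX.XH

/-! # The formula of Q1 for almost all members of exponentially sparse families

Let `a` be a fixed integer with `|a| ≥ 2` and `F` a polynomial with integer coefficients that has a simple nonzero
complex zero. The theorem gives the formula of Q1, with the squarefree part of `n`, for almost all the integers
`n = F(c a ^ k)` (`k < K`), and for almost all the integers `n = D F(c a ^ k) ^ 2`, `D ≠ 1` squarefree, `D ≡ 1 mod 4`:
the number of primes `p ≤ x` modulo which `n` is a primitive root is `δ(n') π(x)` up to `ε π(x)`, for every `x` with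
`X ≤ x ≤ K ^ (1 / (1 + κ))`. For example `a = 2`, `F = 1 - T`, `c = 1`: the numbers `1 - 2 ^ k` (Mersenne numbers with
the sign that puts them in the class `n' ≡ 1 mod 4` of Q1), and `F = 1 + T`: the numbers `2 ^ k + 1`. The family up to
`N` has only about `log N` elements. The exceptional set is so small (any power of `log X` is saved) that the
exponents may be restricted to the primes.

Proof: the order of `a` modulo almost all primes `p ≤ x` is larger than `√x (log x) ^ B` (Erdős and Murty; proved here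
with a smaller saving), so that the powers of `a` modulo `p q` are equidistributed enough for a second moment over `k`:
the correlation of the events modulo `p` and `q` is bounded by mixed character sums `∑ χ(F(c y)) ψ(y)` modulo `p` and
modulo `q`, for which Weil's bound is proved here for all characters `χ ≠ 1`, `ψ`. -/

set_option autoImplicit false

namespace Pool.Agent.Results.MP_991e92_nt.ExponentialFamilies

open Finset Filter Topology

/-- the number of primes `p ≤ x` modulo which `n` is a primitive root -/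
noncomputable def P (n : ℤ) (x : ℕ) : ℕ :=
  ((range (x + 1)).filter (fun p : ℕ => p.Prime ∧ orderOf (n : ZMod p) = p - 1)).card

/-- Artin's constant -/
noncomputable def A : ℝ := ∏' p : Nat.Primes, (1 - 1 / (((p : ℕ) : ℝ) * (((p : ℕ) : ℝ) - 1)))

/-- the density of Q1 for integers with squarefree part `D`: it is
`(1 - μ(|D|) ∏_{q ∣ D} 1 / (q² - q - 1)) ∏_p (1 - 1 / (p (p - 1)))` if `D ≡ 1 mod 4`, and Artin's constant otherwise -/
noncomputable def δ (D : ℤ) : ℝ :=
  if D % 4 = 1 then (1 - ((ArithmeticFunction.moebius D.natAbs : ℤ) : ℝ) *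
      ∏ q ∈ D.natAbs.primeFactors, (1 / ((q : ℝ) ^ 2 - (q : ℝ) - 1))) * A
  else A

/-- The formula for `n` and the primes up to `x`, with an error of at most `ε π(x)`: if `n = D s ^ 2` with `D` squarefree,
then `|P(n, x) - δ(D) π(x)| ≤ ε π(x)`. -/
def Law (ε : ℝ) (n : ℤ) (x : ℕ) : Prop :=
  ∀ D s : ℤ, Squarefree D → n = D * s ^ 2 →
    |(P n x : ℝ) - δ D * (Nat.primeCounting x : ℝ)| ≤ ε * (Nat.primeCounting x : ℝ)

lemma P_eq (n : ℤ) (x : ℕ) : P n x = Pool.Agent.H730R2.AA.cnt n x := by
  classical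
  unfold P Pool.Agent.H730R2.AA.cnt
  congr!

lemma Law_iff (ε : ℝ) (n : ℤ) (x : ℕ) : Law ε n x ↔ Pool.Agent.KS6_33.EX.Law ε n x := by
  unfold Law Pool.Agent.KS6_33.EX.Law
  rw [P_eq]
  exact Iff.rfl

/-- **Theorem.** Let `a` be an integer, `|a| ≥ 2`, let `F` be a polynomial with integer coefficients that has a simple
nonzero complex zero, and let `H = F` or `H = D F ^ 2` with `D ≠ 1` squarefree, `D ≡ 1 mod 4`. Let `B` be a natural
number and `ε, κ > 0`. There are `C` and `X₀` such that for all `X ≥ X₀`, all `K` and all integers `c ≠ 0` with at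
most `√X` prime factors, all but at most `C K / (log X) ^ B` of the exponents `k < K` satisfy: the formula of Q1 holds
for `n = H(c a ^ k)`, up to `ε π(x)`, for EVERY `x` with `X ≤ x` and `x ^ (1 + κ) ≤ K`. Hence for every `c ≠ 0` the
share of the primes `q < K` for which the formula fails for `n = H(c a ^ q)` at some `x` with
`exp ((log K) ^ κ) ≤ x` and `x ^ (1 + κ) ≤ K` tends to `0`. -/
theorem result (a : ℤ) (ha : 2 ≤ |a|) (F : Polynomial ℤ)
    (hF : ∃ z : ℂ, z ≠ 0 ∧ Polynomial.aeval z F = 0 ∧ Polynomial.aeval z (Polynomial.derivative F) ≠ 0)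
    (H : Polynomial ℤ)
    (hH : H = F ∨ ∃ D : ℤ, Squarefree D ∧ D % 4 = 1 ∧ D ≠ 1 ∧ H = Polynomial.C D * F ^ 2)
    (ε κ : ℝ) (hε : 0 < ε) (hκ : 0 < κ) :
    (∀ B : ℕ, ∃ (C : ℝ) (X₀ : ℕ), ∀ (X K : ℕ) (c : ℤ), X₀ ≤ X → c ≠ 0 →
      (c.natAbs.primeFactors.card : ℝ) ≤ Real.sqrt X →
      (Nat.card {k : ℕ // k < K ∧ ¬ ∀ x : ℕ, X ≤ x → (x : ℝ) ^ (1 + κ) ≤ K →
        Law ε (H.eval (c * a ^ k)) x} : ℝ) ≤ C * (K / (Real.log X) ^ B)) ∧
    ∀ c : ℤ, c ≠ 0 → Tendsto (fun K : ℕ =>
      (Nat.card {q : ℕ // q < K ∧ q.Prime ∧ ¬ ∀ x : ℕ, Real.exp ((Real.log K) ^ κ) ≤ x →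
        (x : ℝ) ^ (1 + κ) ≤ K → Law ε (H.eval (c * a ^ q)) x} : ℝ) / (Nat.primeCounting K : ℝ)) atTop (𝓝 0) := by
  classical
  obtain ⟨z, hz, h0, h1⟩ := hF
  have hmain : ∀ B : ℕ, Pool.Agent.KS6_33.EX.Few a B κ (fun v x => Law ε (H.eval v) x) := by
    intro B
    have h2 := Pool.Agent.KS6_33.EX.main_exp a ha F z hz h0 h1 H hH B ε κ hε hκ
    simp only [Law_iff]
    exact h2
  constructor
  · intro B
    obtain ⟨C, X₀, hC, hX₀, h⟩ := hmain B
    refine ⟨C, X₀, fun X K c hX hc hcX => ?_⟩
    obtain ⟨E, hE⟩ : ∃ E : Finset ℕ, E = (range K).filter (fun k => ¬ ∀ x : ℕ, X ≤ x →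
      (x : ℝ) ^ (1 + κ) ≤ K → Law ε (H.eval (c * a ^ k)) x) := ⟨_, rfl⟩
    have hcard : Nat.card {k : ℕ // k < K ∧ ¬ ∀ x : ℕ, X ≤ x → (x : ℝ) ^ (1 + κ) ≤ K →
        Law ε (H.eval (c * a ^ k)) x} = E.card := by
      apply Nat.subtype_card
      intro k
      rw [hE, mem_filter, mem_range]
    rw [hcard]
    refine h X K c hX hc hcX E (by rw [hE]; exact filter_subset _ _) fun k hk => ?_
    rw [hE, mem_filter] at hk
    have h2 := hk.2
    push Not at h2
    exact h2
  · intro c hc
    apply Pool.Agent.KS6_33.EX.primes_of_few a κ hκ (fun v x => Law ε (H.eval v) x) hmain c hc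
    intro K
    refine ⟨(range K).filter (fun q => q.Prime ∧ ¬ ∀ x : ℕ, Real.exp ((Real.log K) ^ κ) ≤ x →
        (x : ℝ) ^ (1 + κ) ≤ K → Law ε (H.eval (c * a ^ q)) x), ?_, filter_subset _ _, ?_⟩
    · apply Nat.subtype_card
      intro k
      rw [mem_filter, mem_range]
    · intro k hk
      rw [mem_filter] at hk
      have h2 := hk.2.2
      push Not at h2
      exact h2

end Pool.Agent.Results.MP_991e92_nt.ExponentialFamilies
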