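import Pool.Agent.KS6_33.SP.YF

/-! # The formula of Q1 for almost all members of the families `F(c m ^ r)`, uniformly in the exponent `r`

Let `F` be a polynomial with integer coefficients that has a simple nonzero complex zero. The theorem gives the formula
of Q1, with the squarefree part of `n`, for almost all the integers `n = F(c m ^ r)`, where `m` runs through the first
`N` members `b + q j` of an arithmetic progression and the exponent `r` is arbitrary (it may be any function of `N`, of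
any size) as long as it does not have too many divisors; and for almost all the integers `n = D F(c m ^ r) ^ 2`,
`D ≠ 1` squarefree, `D ≡ 1 mod 4`. The number of primes `p ≤ x` modulo which `n` is a primitive root is `δ(n') π(x)` up
to `ε π(x)`, for every `x` with `X ≤ x` and `x ^ (2 + κ) ≤ N`. For example `F = 1 - T`: the numbers `1 - m ^ r` with
`m` and `r` primes. All the constants are uniform in `r, b, q, c`; since `r` may grow as fast as one wants, the
number of members of the family up to a given height tends to infinity as slowly as one wants.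

Proof: a second moment over `m`. Modulo `p` the mean value of the event over the `r`-th powers is computed from the
`gcd (r, p - 1)` characters of order dividing `r` and the mixed Weil sums `∑ χ(F(c y)) ψ(y)`, so that the degree of
`F(c T ^ r)`, for which Weil's bound is empty, does not matter; the primes with a large `gcd (r, p - 1)` are few as
`r` has few divisors. -/

set_option autoImplicit false

namespace Pool.Agent.Results.MP_991e92_nt.LargePowers

open Finset Filter Topology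

/-- the number of primes `p ≤ x` modulo which `n` is a primitive root -/
noncomputable def P (n : ℤ) (x : ℕ) : ℕ :=
  ((range (x + 1)).filter (fun p : ℕ => p.Prime ∧ orderOf (n : ZMod p) = p - 1)).card

/-- Artin's constant -/
noncomputable def A : ℝ := ∏' p : Nat.Primes, (1 - 1 / (((p : ℕ) : ℝ) * (((p : ℕ) : ℝ) - 1)))

/-- the density of Q1 for integers with squarefree part `D`: it is
`(1 - μ(|D|) ∏_{q ∣ D} 1 / (q² - q - 1)) ∏_p (1 - 1 / (p (p - 1)))` if `D ≡ 1 mod 4`, and Artin's constant otherwise -/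
noncomputable def δ (D : ℤ) : ℝ :=
  if D % 4 = 1 then (1 - ((ArithmeticFunction.moebius D.natAbs : ℤ) : ℝ) *
      ∏ q ∈ D.natAbs.primeFactors, (1 / ((q : ℝ) ^ 2 - (q : ℝ) - 1))) * A
  else A

/-- The formula for `n` and the primes up to `x`, with an error of at most `ε π(x)`: if `n = D s ^ 2` with `D` squarefree,
then `|P(n, x) - δ(D) π(x)| ≤ ε π(x)`. -/
def Law (ε : ℝ) (n : ℤ) (x : ℕ) : Prop :=
  ∀ D s : ℤ, Squarefree D → n = D * s ^ 2 →
    |(P n x : ℝ) - δ D * (Nat.primeCounting x : ℝ)| ≤ ε * (Nat.primeCounting x : ℝ)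

lemma P_eq (n : ℤ) (x : ℕ) : P n x = Pool.Agent.H730R2.AA.cnt n x := by
  classical
  unfold P Pool.Agent.H730R2.AA.cnt
  congr!

lemma Law_iff (ε : ℝ) (n : ℤ) (x : ℕ) : Law ε n x ↔ Pool.Agent.KS6_33.EX.Law ε n x := by
  unfold Law Pool.Agent.KS6_33.EX.Law
  rw [P_eq]
  exact Iff.rfl

/-- **Theorem.** Let `F` be a polynomial with integer coefficients that has a simple nonzero complex zero, and let
`H = F` or `H = D F ^ 2` with `D ≠ 1` squarefree, `D ≡ 1 mod 4`. Let `ε > 0` and `0 < κ < 1`. There are `C` and `X₀`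
such that for all `X ≥ X₀`, all `N`, all exponents `r ≥ 1` with at most `X ^ (1 / 4)` divisors, and all integers `b`,
`c ≠ 0`, `q ≠ 0` with at most `√X` prime factors each (in `c` and in `q`), all but at most `C N / X ^ κ` of the `j < N`
satisfy: the formula of Q1 holds for `n = H(c (b + q j) ^ r)`, up to `ε π(x)`, for EVERY `x` with `X ≤ x` and
`x ^ (2 + κ) ≤ N`. Hence for every `c ≠ 0` and every function `r` with `r(N) ≥ 1` and `r(N)` having at most `√(log N)`
divisors for all large `N` (for example all `r(N)` primes, of any size), the share of the primes `ℓ < N` for which the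
formula fails for `n = H(c ℓ ^ r(N))` at some `x` with `(log N) ^ (2 / κ) ≤ x` and `x ^ (2 + κ) ≤ N` tends to `0`. -/
theorem result (F : Polynomial ℤ)
    (hF : ∃ z : ℂ, z ≠ 0 ∧ Polynomial.aeval z F = 0 ∧ Polynomial.aeval z (Polynomial.derivative F) ≠ 0)
    (H : Polynomial ℤ)
    (hH : H = F ∨ ∃ D : ℤ, Squarefree D ∧ D % 4 = 1 ∧ D ≠ 1 ∧ H = Polynomial.C D * F ^ 2)
    (ε κ : ℝ) (hε : 0 < ε) (hκ : 0 < κ) (hκ1 : κ < 1) :
    (∃ (C : ℝ) (X₀ : ℕ), ∀ (X N r : ℕ) (b c q : ℤ), X₀ ≤ X → 1 ≤ r → c ≠ 0 → q ≠ 0 →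
      (r.divisors.card : ℝ) ≤ (X : ℝ) ^ (1 / 4 : ℝ) →
      (c.natAbs.primeFactors.card : ℝ) ≤ Real.sqrt X → (q.natAbs.primeFactors.card : ℝ) ≤ Real.sqrt X →
      (Nat.card {j : ℕ // j < N ∧ ¬ ∀ x : ℕ, X ≤ x → (x : ℝ) ^ (2 + κ) ≤ N →
        Law ε (H.eval (c * (b + q * (j : ℤ)) ^ r)) x} : ℝ) ≤ C * (N / (X : ℝ) ^ κ)) ∧
    ∀ c : ℤ, c ≠ 0 → ∀ r : ℕ → ℕ,
      (∀ᶠ N : ℕ in atTop, 1 ≤ r N ∧ ((r N).divisors.card : ℝ) ≤ Real.sqrt (Real.log N)) →
      Tendsto (fun N : ℕ =>
      (Nat.card {l : ℕ // l < N ∧ l.Prime ∧ ¬ ∀ x : ℕ, (Real.log N) ^ (2 / κ) ≤ x →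
        (x : ℝ) ^ (2 + κ) ≤ N → Law ε (H.eval (c * (l : ℤ) ^ r N)) x} : ℝ) / (Nat.primeCounting N : ℝ))
        atTop (𝓝 0) := by
  classical
  obtain ⟨z, hz, h0, h1⟩ := hF
  obtain ⟨C, X₀, hC, h⟩ := Pool.Agent.KS6_33.SP.main_sp F z hz h0 h1 H hH ε κ hε hκ hκ1
  simp only [← Law_iff] at h
  constructor
  · refine ⟨C, X₀, fun X N r b c q hX hr hc hq hτ hcX hqX => ?_⟩
    obtain ⟨E, hE⟩ : ∃ E : Finset ℕ, E = (range N).filter (fun j : ℕ => ¬ ∀ x : ℕ, X ≤ x →
      (x : ℝ) ^ (2 + κ) ≤ N → Law ε (H.eval (c * (b + q * (j : ℤ)) ^ r)) x) := ⟨_, rfl⟩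
    have hcard : Nat.card {j : ℕ // j < N ∧ ¬ ∀ x : ℕ, X ≤ x → (x : ℝ) ^ (2 + κ) ≤ N →
        Law ε (H.eval (c * (b + q * (j : ℤ)) ^ r)) x} = E.card := by
      apply Nat.subtype_card
      intro j
      rw [hE, mem_filter, mem_range]
    rw [hcard]
    refine h X N r b c q hX (by omega) hc hq hτ hcX hqX E (by rw [hE]; exact filter_subset _ _) fun j hj => ?_
    rw [hE, mem_filter] at hj
    have h2 := hj.2
    push Not at h2
    exact h2
  · intro c hc r hr
    obtain ⟨r', hr'⟩ : ∃ r' : ℕ → ℕ, r' = fun N => if r N = 0 then 1 else r N := ⟨_, rfl⟩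
    have hr'0 : ∀ N, r' N ≠ 0 := by
      intro N
      rw [hr']
      dsimp only
      split_ifs with h2
      · exact one_ne_zero
      · exact h2
    have hrr : ∀ᶠ N : ℕ in atTop, r' N = r N := by
      filter_upwards [hr] with N hN
      rw [hr']
      dsimp only
      rw [if_neg (by omega)]
    have key := Pool.Agent.KS6_33.SP.primes_of_sp κ hκ hκ1 C X₀ hC (c.natAbs.primeFactors.card : ℝ)
      (fun N => Nat.card {l : ℕ // l < N ∧ l.Prime ∧ ¬ ∀ x : ℕ, (Real.log N) ^ (2 / κ) ≤ x →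
        (x : ℝ) ^ (2 + κ) ≤ N → Law ε (H.eval (c * (l : ℤ) ^ r' N)) x})
      (fun N => ((r' N).divisors.card : ℝ)) (by
        filter_upwards [hr, hrr] with N h2 h3
        rw [h3]
        exact h2.2) (by
        intro X N hX ht hω hX1 hX2
        obtain ⟨E, hE⟩ : ∃ E : Finset ℕ, E = (range N).filter (fun l : ℕ => l.Prime ∧ ¬ ∀ x : ℕ,
          (Real.log N) ^ (2 / κ) ≤ x → (x : ℝ) ^ (2 + κ) ≤ N → Law ε (H.eval (c * (l : ℤ) ^ r' N)) x) := ⟨_, rfl⟩
        have hcard : Nat.card {l : ℕ // l < N ∧ l.Prime ∧ ¬ ∀ x : ℕ, (Real.log N) ^ (2 / κ) ≤ x →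
            (x : ℝ) ^ (2 + κ) ≤ N → Law ε (H.eval (c * (l : ℤ) ^ r' N)) x} = E.card := by
          apply Nat.subtype_card
          intro j
          rw [hE, mem_filter, mem_range]
        rw [hcard]
        refine h X N (r' N) 0 c 1 hX (hr'0 N) hc one_ne_zero ht hω (by simp) E
          (by rw [hE]; exact filter_subset _ _) fun j hj => ?_
        rw [hE, mem_filter] at hj
        have h2 := hj.2.2
        push Not at h2
        obtain ⟨x, hx1, hx2, hx3⟩ := h2
        refine ⟨x, hX2 x hx1, hx2, ?_⟩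
        rwa [zero_add, one_mul])
    refine key.congr' ?_
    filter_upwards [hrr] with N hN
    rw [hN]

end Pool.Agent.Results.MP_991e92_nt.LargePowers
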