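import Mathlib
import Pool.Agent.KS6_18.T1

set_option autoImplicit false

/-!
# Artin's conjecture for all but `N ^ θ` of the integers `n ≤ N`, for every `θ > 0`

Let `n = D m ^ 2` with `D ≡ 1 mod 4` squarefree, `D ≠ 1`, and let `T x z` be the set of the primes
`p ≤ x` such that `p - 1` has no odd prime factor `≤ z`.  The expected proportion of the primes of
`T x z` modulo which `n` is a primitive root is
`δ(D) = (1 - μ(|D|) ∏_{q ∣ D} 1 / (q - 2)) / 2`, the analogue of the density of the problem (only the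
prime factors `l > z` of `p - 1`, which contribute `O(1 / log z)`, are left besides `l = 2`).

Let `θ, ε, C₁, C₂ > 0` be arbitrary.  For all but `N ^ θ` integers `n` of absolute value at most `N`
(and with the exception of the `n` with `|D|` in a set of at most `(log N) ^ A` integers, all larger
than `(log N) ^ B`) this holds up to `ε` for all `x` between `N ^ C₁` and `N ^ C₂` up to a set of `x` of
logarithmic measure at most `ε log N`.  The number `z ≥ z₀` may be fixed; then `n` is a primitive root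
modulo a positive proportion of all primes `p ≤ x`.
-/

namespace Pool.Agent.Results.MP_991e92_nt.PositiveProportion

open Finset

open Classical in
/-- the primes `p ≤ x` such that `p - 1` has no odd prime factor `≤ z` -/
noncomputable def T (x z : ℕ) : Finset ℕ :=
  (Icc 1 x).filter (fun p => p.Prime ∧ ∀ q : ℕ, q.Prime → 3 ≤ q → q ≤ z → ¬ q ∣ p - 1)

open Classical in
/-- the number of the primes `p` of `T x z` modulo which `n` is a primitive root -/
noncomputable def P (n : ℤ) (x z : ℕ) : ℕ :=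
  ((T x z).filter (fun p : ℕ => ¬ (p : ℤ) ∣ n ∧ orderOf (n : ZMod p) = p - 1)).card

/-- the relative density `(1 - μ(|D|) ∏_{q ∣ D} 1 / (q - 2)) / 2` -/
noncomputable def δ (D : ℤ) : ℝ :=
  1 / 2 * (1 - ((ArithmeticFunction.moebius D.natAbs : ℤ) : ℝ) *
    ∏ q ∈ D.natAbs.primeFactors, (1 / ((q : ℝ) - 2)))

/-- the number `x` is good for `n` and `z`: the proportion is `δ(D)` up to `ε`, and at least
`c x / (log x log z)` of the primes `p ≤ x` have the primitive root `n` -/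
def Good (ε c : ℝ) (n D : ℤ) (x z : ℕ) : Prop :=
  |(P n x z : ℝ) - δ D * (T x z).card| ≤ ε * (T x z).card ∧
    c * x / (Real.log x * Real.log z) ≤ (P n x z : ℝ)

lemma T_eq (x z : ℕ) : T x z = Pool.Agent.Y855.TT x z := by
  classical
  unfold T Pool.Agent.Y855.TT
  apply filter_congr
  intro p _
  constructor
  · rintro ⟨h1, h2⟩
    refine ⟨h1, fun q hq => ?_⟩
    rw [Pool.Agent.Y855.mem_OP] at hq
    exact h2 q hq.1 hq.2.1 hq.2.2
  · rintro ⟨h1, h2⟩
    refine ⟨h1, fun q hq h3 hz => ?_⟩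
    exact h2 q (Pool.Agent.Y855.mem_OP.2 ⟨hq, h3, hz⟩)

lemma P_eq (n : ℤ) (x z : ℕ) : P n x z = (Pool.Agent.Y855.PR n x z).card := by
  classical
  unfold P Pool.Agent.Y855.PR
  rw [T_eq]
  congr 1
  apply filter_congr
  intro p hp
  constructor
  · exact fun h => h.2
  · intro h
    refine ⟨fun hd => ?_, h⟩
    have hpp := Pool.Agent.N430.LK.TT_prime hp
    have : Fact p.Prime := ⟨hpp⟩
    have h0 : (n : ZMod p) = 0 := (ZMod.intCast_zmod_eq_zero_iff_dvd _ _).2 hd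
    rw [h0] at h
    have h1 : orderOf (0 : ZMod p) = 0 := by
      rw [orderOf_eq_zero_iff']
      intro k hk
      rw [zero_pow hk.ne']
      exact zero_ne_one
    rw [h1] at h
    have := hpp.two_le
    omega

lemma δ_eq (D : ℤ) : δ D = Pool.Agent.Y855.dl D.natAbs := rfl

open Classical in
theorem result (θ ε C₁ C₂ : ℝ) (hθ : 0 < θ) (hε : 0 < ε) (hε' : ε ≤ 1 / 6) (hC₁ : 0 < C₁)
    (hC₂ : C₁ ≤ C₂) :
    ∃ (κ c : ℝ) (z₀ A : ℕ), 0 < κ ∧ 0 < c ∧ ∀ B : ℕ, ∃ N₀ : ℕ, ∀ N : ℕ, N₀ ≤ N →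
      ∀ z : ℕ, z₀ ≤ z → (z : ℝ) ≤ (N : ℝ) ^ κ →
      ∃ (E : Finset ℤ) (F : Finset ℕ), (E.card : ℝ) ≤ (N : ℝ) ^ θ ∧
        (F.card : ℝ) ≤ (Real.log N) ^ A ∧ (∀ b ∈ F, (Real.log N) ^ B < b) ∧
        ∀ n D m : ℤ, n = D * m ^ 2 → n ≠ 0 → n.natAbs ≤ N → Squarefree D → D % 4 = 1 → D ≠ 1 →
          n ∉ E → D.natAbs ∉ F →
          ∑ x ∈ (Icc ⌈(N : ℝ) ^ C₁⌉₊ ⌊(N : ℝ) ^ C₂⌋₊).filter (fun x => ¬ Good ε c n D x z),
            1 / (x : ℝ) ≤ ε * Real.log N := by
  obtain ⟨K, hK1, z₀, A, hz₀, h⟩ := Pool.Agent.KS6_18.t1 θ ε C₁ C₂ hθ hε hC₁ hC₂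
  have hK0 : 0 < K := by linarith
  refine ⟨C₁ / K, 1 / (6 * K), z₀, A, by positivity, by positivity, fun B => ?_⟩
  obtain ⟨N₁, hN₁⟩ := Filter.eventually_atTop.1 (h B)
  refine ⟨max N₁ 2, fun N hN z hz hzκ => ?_⟩
  have hNN : N₁ ≤ N := (le_max_left _ _).trans hN
  have hN2 : 2 ≤ N := (le_max_right _ _).trans hN
  have hN0 : (0 : ℝ) < N := by exact_mod_cast (by omega : 0 < N)
  have hzK : (z : ℝ) ^ K ≤ (N : ℝ) ^ C₁ := by
    have h1 : (z : ℝ) ^ K ≤ ((N : ℝ) ^ (C₁ / K)) ^ K :=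
      Real.rpow_le_rpow (Nat.cast_nonneg _) hzκ hK0.le
    rwa [← Real.rpow_mul hN0.le, div_mul_cancel₀ _ hK0.ne'] at h1
  obtain ⟨h1, E, F, hE, hF, hFB, h2⟩ := hN₁ N hNN z hz hzK
  refine ⟨E, F, hE, hF, hFB, ?_⟩
  intro n D m hn hn0 hnN hD hD4 hD1 hnE hDF
  refine le_trans (sum_le_sum_of_subset_of_nonneg ?_ fun _ _ _ => by positivity)
    (h2 n D m hn hn0 hnN hD hD4 hnE hDF)
  intro x hx
  rw [mem_filter] at hx ⊢
  refine ⟨hx.1, fun hg => hx.2 ?_⟩
  unfold Pool.Agent.KS6_18.Good at hg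
  rw [← P_eq, ← T_eq, ← δ_eq] at hg
  refine ⟨hg, ?_⟩
  have hodd : Odd D.natAbs := by rw [Nat.odd_iff]; omega
  have hsf : Squarefree D.natAbs := Int.squarefree_natAbs.2 hD
  have h3 : 1 / 3 ≤ δ D := by
    rw [δ_eq]
    exact Pool.Agent.N430.LK.dl_third _ hsf hodd (by omega)
  have h4 := h1 x hx.1
  rw [← T_eq] at h4
  have h5 := (abs_le.1 hg).1
  have ht : (0 : ℝ) ≤ (T x z).card := Nat.cast_nonneg _
  have h6 : 1 / 3 * ((T x z).card : ℝ) ≤ δ D * (T x z).card := mul_le_mul_of_nonneg_right h3 ht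
  have h7 : ε * ((T x z).card : ℝ) ≤ 1 / 6 * (T x z).card := mul_le_mul_of_nonneg_right hε' ht
  calc 1 / (6 * K) * x / (Real.log x * Real.log z) = 1 / 6 * (x / (K * (Real.log x * Real.log z))) := by
        rw [one_div_mul_eq_div, div_div, div_mul_div_comm, one_mul, mul_assoc]
    _ ≤ 1 / 6 * (T x z).card := mul_le_mul_of_nonneg_left h4 (by norm_num)
    _ ≤ (P n x z : ℝ) := by linarith

end Pool.Agent.Results.MP_991e92_nt.PositiveProportion
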